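import Pool.Agent.helper85.AQ.SpecB

/-!
# Row BEI of project aq (MP_3703a7_ag): the roots of an Eisenstein polynomial at a place over `p`
-/

set_option autoImplicit false

namespace Pool.Agent.AQ

open Polynomial Pool.Agent.HC Pool.Agent.HC.SJ Pool.Agent.SJ Pool.Agent.GJ Pool.Agent.TK Pool.Agent.CM
open Pool.Agent.TQJ Pool.Agent.TQG
open Pool.Agent.FJ (VT Om chiO rf rs IsFrobO)
open Pool.Agent.TD (zK DvK bC mK IsPhiK Stab)
open scoped TensorProduct NumberField

noncomputable section

theorem BEI_unit {K : Type} [Field K] {O : ValuationSubring K} {p : ℕ} (hp : p.Prime) (hpO : ((p : ℕ) : rf O) = 0)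
    {c : ℤ} (hc : ¬ (p : ℤ) ∣ c) : ((c : ℤ) : rf O) ≠ 0 := by
  intro h0
  have hp' : Prime (p : ℤ) := Nat.prime_iff_prime_int.1 hp
  obtain ⟨u, v, huv⟩ := (hp'.irreducible.coprime_iff_not_dvd).2 hc
  have h1 : ((u * (p : ℤ) + v * c : ℤ) : rf O) = 1 := by rw [huv]; norm_num
  push_cast at h1
  rw [hpO, h0] at h1
  simp at h1

theorem BEI : BEI_stmt := by
  intro K _ _ O p n hp hpO hmO F hF hE a ha
  classical
  have hp0 : ((p : ℕ) : K) ≠ 0 := by exact_mod_cast hp.ne_zero
  have hdeg : F.natDegree = n + 1 := by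
    have h1 : (F.map (Int.castRingHom K)).natDegree = F.natDegree := hF.natDegree_map _
    rw [← h1, ha, natDegree_finsetProd_X_sub_C_eq_card, Finset.card_univ, Fintype.card_fin]
  have hd0 : ∀ i, i < n + 1 → ∃ d : ℤ, F.coeff i = (p : ℤ) * d := by
    intro i hi
    have h1 := hE.mem (n := i) (by rw [hdeg]; exact hi)
    rw [Ideal.mem_span_singleton] at h1
    exact h1
  choose! d hd using hd0
  have hdn : ¬ (p : ℤ) ∣ d 0 := by
    intro h1
    apply hE.notMem
    rw [Ideal.span_singleton_pow, Ideal.mem_span_singleton, hd 0 (Nat.succ_pos n), sq]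
    exact mul_dvd_mul_left _ h1
  have hd0O : ((d 0 : ℤ) : rf O) ≠ 0 := BEI_unit hp hpO hdn
  -- the roots are integral
  have hroot : ∀ j, (F.map (Int.castRingHom K)).eval (a j) = 0 := by
    intro j
    rw [ha, eval_prod]
    apply Finset.prod_eq_zero (Finset.mem_univ j)
    simp
  have hβ : ∀ j, ∃ y : O, (y : K) = a j := by
    intro j
    have hint : IsIntegral O (a j) := by
      refine ⟨F.map (Int.castRingHom O), hF.map _, ?_⟩
      have h1 := hroot j
      rw [eval_map] at h1
      rw [eval₂_map]
      rw [← h1]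
      have h2 : (algebraMap O K).comp (Int.castRingHom O) = Int.castRingHom K := RingHom.ext_int _ _
      rw [h2]
    obtain ⟨y, hy⟩ := IsIntegrallyClosed.isIntegral_iff.1 hint
    exact ⟨y, hy⟩
  choose β hβ using hβ
  -- the equation
  have heq : ∀ j, β j ^ (n + 1) = (p : O) * (-∑ i ∈ Finset.range (n + 1), ((d i : ℤ) : O) * β j ^ i) := by
    intro j
    have h1 : F.eval₂ (Int.castRingHom O) (β j) = 0 := by
      apply Subtype.coe_injective
      have h2 := hroot j
      rw [eval_map, ← hβ j] at h2
      have h3 : O.subtype (F.eval₂ (Int.castRingHom O) (β j)) =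
          F.eval₂ (O.subtype.comp (Int.castRingHom O)) (O.subtype (β j)) := hom_eval₂ _ _ _ _
      have h4 : O.subtype.comp (Int.castRingHom O) = Int.castRingHom K := RingHom.ext_int _ _
      rw [h4] at h3
      exact h3.trans h2
    rw [eval₂_eq_sum_range, hdeg, Finset.sum_range_succ] at h1
    have h5 : F.coeff (n + 1) = 1 := by
      have := hF.coeff_natDegree
      rwa [hdeg] at this
    rw [h5, map_one, one_mul] at h1
    have h6 : ∑ i ∈ Finset.range (n + 1), (Int.castRingHom O) (F.coeff i) * β j ^ i =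
        (p : O) * ∑ i ∈ Finset.range (n + 1), ((d i : ℤ) : O) * β j ^ i := by
      rw [Finset.mul_sum]
      apply Finset.sum_congr rfl
      intro i hi
      have h7 : (Int.castRingHom O) ((p : ℤ) * d i) = (p : O) * ((d i : ℤ) : O) := by
        rw [map_mul, map_natCast, eq_intCast]
      rw [hd i (Finset.mem_range.1 hi), h7, mul_assoc]
    rw [h6] at h1
    rw [mul_neg]
    exact eq_neg_of_add_eq_zero_right h1
  set u : Fin (n + 1) → O := fun j => -∑ i ∈ Finset.range (n + 1), ((d i : ℤ) : O) * β j ^ i with hu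
  have heq' : ∀ j, β j ^ (n + 1) = (p : O) * u j := heq
  have hrβ : ∀ j, rs O (β j) = 0 := by
    intro j
    have h1 := congrArg (rs O) (heq' j)
    rw [map_pow, map_mul, map_natCast, hpO, zero_mul] at h1
    exact pow_eq_zero_iff (Nat.succ_ne_zero n) |>.1 h1
  have hru : ∀ j, rs O (u j) = -((d 0 : ℤ) : rf O) := by
    intro j
    rw [hu]
    simp only
    rw [map_neg, map_sum, Finset.sum_range_succ']
    simp only [map_mul, map_pow, hrβ j, map_intCast, pow_zero, mul_one]
    rw [Finset.sum_eq_zero]
    · rw [zero_add]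
    · intro i _
      rw [zero_pow (Nat.succ_ne_zero i), mul_zero]
  have huu : ∀ j, IsUnit (u j) := by
    intro j
    rw [← IsLocalRing.residue_ne_zero_iff_isUnit]
    have h1 := hru j
    intro h2
    have h3 : rs O (u j) = 0 := h2
    rw [h1, neg_eq_zero] at h3
    exact hd0O h3
  have haK : ∀ j, a j ^ (n + 1) = (p : K) * (u j : K) := by
    intro j
    have h1 := congrArg (fun y : O => (y : K)) (heq' j)
    push_cast at h1
    rw [hβ j] at h1
    exact h1
  have huK : ∀ j, ((u j : O) : K) ≠ 0 := by
    intro j h0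
    have h1 : u j = 0 := Subtype.coe_injective h0
    have h2 := huu j
    rw [h1] at h2
    exact not_isUnit_zero h2
  have ha0 : ∀ j, a j ≠ 0 := by
    intro j h0
    have h1 := haK j
    rw [h0, zero_pow (Nat.succ_ne_zero n)] at h1
    exact mul_ne_zero hp0 (huK j) h1.symm
  refine ⟨ha0 0, ⟨u 0, huu 0, haK 0⟩, ?_⟩
  -- the quotients
  have hα : ∀ j, ∃ y : O, (y : K) = a j / a 0 := by
    intro j
    obtain ⟨w₀, hw₀⟩ := (huu 0).exists_right_inv
    have hw₀' : ((u 0 : O) : K) * (w₀ : K) = 1 := by
      have := congrArg (fun y : O => (y : K)) hw₀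
      simpa using this
    have h1 : (a j / a 0) ^ (n + 1) = (u j : K) * (w₀ : K) := by
      rw [div_pow, haK j, haK 0, mul_div_mul_left _ _ hp0, div_eq_iff (huK 0)]
      rw [mul_assoc, mul_comm (w₀ : K), hw₀', mul_one]
    rcases O.mem_or_inv_mem (a j / a 0) with h2 | h2
    · exact ⟨⟨_, h2⟩, rfl⟩
    · refine ⟨⟨(a j / a 0)⁻¹, h2⟩ ^ n * (u j * w₀), ?_⟩
      push_cast
      rw [← h1, pow_succ, ← mul_assoc, ← mul_pow, inv_mul_cancel₀ (div_ne_zero (ha0 j) (ha0 0)), one_pow, one_mul]
  choose α hα using hα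
  have hαu : ∀ j, α j ^ (n + 1) * u 0 = u j := by
    intro j
    apply Subtype.coe_injective
    push_cast
    rw [hα j, div_pow, haK j, haK 0, mul_div_mul_left _ _ hp0, div_mul_cancel₀ _ (huK 0)]
  refine ⟨α, hα, fun j => ⟨?_, ?_⟩, ?_⟩
  · have h1 := huu j
    rw [← hαu j] at h1
    have h2 := isUnit_of_mul_isUnit_left h1
    exact (isUnit_pow_iff (Nat.succ_ne_zero n)).1 h2
  · have h1 := congrArg (rs O) (hαu j)
    rw [map_mul, map_pow, hru, hru] at h1
    have h2 : (-((d 0 : ℤ) : rf O)) ≠ 0 := neg_ne_zero.2 hd0O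
    exact mul_right_cancel₀ h2 (by rw [h1, one_mul])
  · -- the residues are different
    set G : O[X] := ∏ j, (X - C (α j)) with hG
    have hGK : (F.map (Int.castRingHom K)).comp (C (a 0) * X) = C (a 0 ^ (n + 1)) * G.map O.subtype := by
      rw [ha, prod_comp, hG, Polynomial.map_prod]
      have h1 : ∀ j ∈ (Finset.univ : Finset (Fin (n + 1))), (X - C (a j)).comp (C (a 0) * X) =
          C (a 0) * (X - C (α j)).map O.subtype := by
        intro j _
        rw [sub_comp, X_comp, C_comp, Polynomial.map_sub, map_X, map_C, mul_sub]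
        congr 1
        rw [← C_mul]
        congr 1
        have h2 : O.subtype (α j) = a j / a 0 := hα j
        rw [h2, mul_div_cancel₀ _ (ha0 0)]
      rw [Finset.prod_congr rfl h1, Finset.prod_mul_distrib, Finset.prod_const, Finset.card_univ, Fintype.card_fin, C_pow]
    have hcoef : ∀ i, i < n + 1 → rs O (G.coeff i) = if i = 0 then -1 else 0 := by
      intro i hi
      have h1 := congrArg (fun P : K[X] => P.coeff i) hGK
      rw [comp_C_mul_X_coeff, coeff_C_mul, coeff_map, coeff_map, hd i hi, haK 0] at h1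
      have h2 : ((d i : ℤ) : O) * β 0 ^ i = u 0 * G.coeff i := by
        apply Subtype.coe_injective
        push_cast
        rw [hβ 0]
        have h3 : (p : K) * (((d i : ℤ) : K) * a 0 ^ i) = (p : K) * ((u 0 : K) * (G.coeff i : K)) := by
          have h4 : (Int.castRingHom K) ((p : ℤ) * d i) = (p : K) * ((d i : ℤ) : K) := by simp
          rw [h4] at h1
          have h5 : O.subtype (G.coeff i) = ((G.coeff i : O) : K) := rfl
          rw [h5] at h1
          rw [← mul_assoc, ← mul_assoc]
          exact h1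
        exact mul_left_cancel₀ hp0 h3
      have h6 := congrArg (rs O) h2
      rw [map_mul, map_mul, map_pow, hrβ 0, hru 0, map_intCast] at h6
      have h7 : (-((d 0 : ℤ) : rf O)) ≠ 0 := neg_ne_zero.2 hd0O
      apply mul_left_cancel₀ h7
      rw [← h6]
      by_cases hi0 : i = 0
      · rw [hi0, pow_zero, if_pos rfl]
        ring
      · rw [if_neg hi0, zero_pow hi0, mul_zero, mul_zero]
    have hGm : G.Monic := monic_prod_of_monic _ _ fun j _ => monic_X_sub_C _
    have hGd : G.natDegree = n + 1 := by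
      rw [hG, natDegree_finsetProd_X_sub_C_eq_card, Finset.card_univ, Fintype.card_fin]
    have hGr : G.map (rs O) = X ^ (n + 1) - 1 := by
      ext i
      rw [coeff_map, coeff_sub, coeff_X_pow, coeff_one]
      rcases lt_trichotomy i (n + 1) with hlt | heqi | hgt
      · rw [hcoef i hlt, if_neg hlt.ne]
        by_cases hi0 : i = 0
        · rw [if_pos hi0, if_pos hi0]
          ring
        · rw [if_neg hi0, if_neg hi0]
          ring
      · have h1 : G.coeff i = 1 := by
          have := hGm.coeff_natDegree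
          rwa [hGd, ← heqi] at this
        rw [h1, map_one, if_pos heqi, if_neg (by omega)]
        ring
      · rw [coeff_eq_zero_of_natDegree_lt (by omega), map_zero, if_neg (by omega), if_neg (by omega)]
        ring
    have hsep : (G.map (rs O)).Separable := by
      rw [hGr]
      exact X_pow_sub_one_separable_iff.2 hmO
    rw [hG, Polynomial.map_prod] at hsep
    simp only [Polynomial.map_sub, map_X, map_C] at hsep
    exact separable_prod_X_sub_C_iff.1 hsep

end

end Pool.Agent.AQ
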