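import Pool.Agent.helper85.AQ.SpecB

/-!
# Row BRO of project aq (MP_3703a7_ag): the automorphism `X ↦ s X` of `Y^l = (X^m - 1)^μ`
-/

set_option autoImplicit false

namespace Pool.Agent.AQ

open Polynomial Pool.Agent.HC Pool.Agent.HC.SJ Pool.Agent.SJ Pool.Agent.GJ Pool.Agent.TK Pool.Agent.CM
open Pool.Agent.TQJ Pool.Agent.TQG
open Pool.Agent.FJ (VT Om chiO rf rs IsFrobO)
open Pool.Agent.TD (zK DvK bC mK IsPhiK Stab)
open scoped TensorProduct NumberField

noncomputable section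

theorem BRO_prodb {k : Type} [Field k] {n : ℕ} {b : Fin (n + 1) → k} (hinj : Function.Injective b)
    (hb : ∀ j, b j ^ (n + 1) = 1) : ∏ j, (X - C (b j)) = (X ^ (n + 1) - 1 : k[X]) := by
  have hm : (X ^ (n + 1) - 1 : k[X]).Monic := monic_X_pow_sub_C 1 (Nat.succ_ne_zero n)
  have hm2 : (∏ j, (X - C (b j)) : k[X]).Monic := monic_prod_of_monic _ _ fun j _ => monic_X_sub_C _
  have hd : (∏ j, (X - C (b j)) : k[X]).natDegree = n + 1 := by
    rw [natDegree_finsetProd_X_sub_C_eq_card, Finset.card_univ, Fintype.card_fin]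
  have hd2 : (X ^ (n + 1) - 1 : k[X]).natDegree = n + 1 := natDegree_X_pow_sub_C (r := (1 : k))
  have hdd : (∏ j, (X - C (b j)) : k[X]).degree = (X ^ (n + 1) - 1 : k[X]).degree := by
    rw [degree_eq_natDegree hm.ne_zero, degree_eq_natDegree hm2.ne_zero, hd, hd2]
  apply Polynomial.eq_of_degree_sub_lt_of_eval_index_eq (v := b) Finset.univ hinj.injOn
  · have h1 := degree_sub_lt_left hdd hm2.ne_zero (by rw [hm.leadingCoeff, hm2.leadingCoeff])
    rw [degree_eq_natDegree hm2.ne_zero, hd] at h1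
    rw [Finset.card_univ, Fintype.card_fin]
    exact h1
  · intro j _
    rw [eval_prod, Finset.prod_eq_zero (Finset.mem_univ j) (by simp)]
    rw [eval_sub, eval_pow, eval_X, eval_one, hb j, sub_self]

theorem BRO_pt {k : Type} [Field k] {n : ℕ} {μ : Fin (n + 1) → ℕ} {b : Fin (n + 1) → k}
    (hP : ∏ j, (X - C (b j)) = (X ^ (n + 1) - 1 : k[X])) (hμ : ∀ j, μ j = μ 0) (u : k) :
    ∏ j, (u - b j) ^ μ j = (u ^ (n + 1) - 1) ^ μ 0 := by
  have h1 : ∏ j, (u - b j) = u ^ (n + 1) - 1 := by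
    have h2 := congrArg (fun p : k[X] => p.eval u) hP
    rw [eval_prod] at h2
    simpa using h2
  rw [← h1, ← Finset.prod_pow]
  exact Finset.prod_congr rfl fun j _ => by rw [hμ j]

theorem BRO_ne {k : Type} [Field k] {l n : ℕ} [Fact l.Prime] {μ : Fin (n + 1) → ℕ} {b : Fin (n + 1) → k}
    [Good k l μ b] (hP : ∏ j, (X - C (b j)) = (X ^ (n + 1) - 1 : k[X])) (hμ : ∀ j, μ j = μ 0) (q : Pc k l μ b) :
    q.1.1 ^ (n + 1) - 1 ≠ 0 := by
  intro h0
  have h1 := q.2.1
  rw [BRO_pt hP hμ, h0, zero_pow (Good.pos (K := k) (l := l) (μ := μ) (a := b) 0).ne'] at h1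
  have h2 := q.2.2
  have h3 : q.1.2 = 0 := by
    have hl : l ≠ 0 := (Fact.out (p := l.Prime)).ne_zero
    exact (pow_eq_zero_iff hl).1 h1
  rw [h3] at h2
  exact not_isUnit_zero h2

/-- the divisor -/
theorem BRO_div (hMN : TD.MN_stmt) (hMK : TD.MK_stmt) {k : Type} [Field k] [IsAlgClosed k] {l n : ℕ} [Fact l.Prime]
    [NeZero (l : k)] (hl2 : l ≠ 2) {μ : Fin (n + 1) → ℕ} {b : Fin (n + 1) → k} [Good k l μ b]
    [IsDedekindDomain (CR k l μ b)] (hμ : ∀ j, μ j = μ 0) (hb : ∀ j, b j ^ (n + 1) = 1) {s : k}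
    (hs : IsPrimitiveRoot s (n + 1)) (q : Pc k l μ b) (qi : ℕ → Pc k l μ b)
    (hqi : ∀ i, (qi i).1.1 = s ^ i * q.1.1 ∧ (qi i).1.2 = q.1.2) :
    ∃ f, dvI ((Multiset.range (n + 1)).map qi) = Ideal.span {f} := by
  classical
  have hinj := Good.inj (K := k) (l := l) (μ := μ) (a := b)
  have hpos := Good.pos (K := k) (l := l) (μ := μ) (a := b) 0
  have hlt := Good.lt (K := k) (l := l) (μ := μ) (a := b) 0
  have hlp : l.Prime := Fact.out
  have hP := BRO_prodb hinj hb
  -- the exponents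
  have hco : Nat.Coprime (μ 0) l := (Nat.coprime_of_lt_prime hpos.ne' hlt hlp).symm
  obtain ⟨κ, -, hκ⟩ := Nat.exists_mul_mod_eq_one_of_coprime hco hlp.one_lt
  obtain ⟨e, he⟩ : ∃ e, κ * μ 0 = l * e + 1 := ⟨μ 0 * κ / l, by
    have := Nat.div_add_mod (μ 0 * κ) l
    rw [hκ] at this
    rw [mul_comm κ]
    exact this.symm⟩
  have hκl : ¬ l ∣ κ := by
    intro h
    have h1 : μ 0 * κ % l = 0 := Nat.mod_eq_zero_of_dvd (Dvd.dvd.mul_left h _)
    omega
  -- the inverse
  have hunit : IsUnit (CR.pol (∏ i, (X - C (b i)) ^ e) : CR k l μ b) := by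
    apply isUnit_of_dvd_unit _ ((CR.unit_f (A := k) (l := l) (μ := μ) (a := b)).pow e)
    rw [← map_pow]
    apply _root_.map_dvd
    rw [fp, ← Finset.prod_pow]
    apply Finset.prod_dvd_prod_of_dvd
    intro i _
    apply pow_dvd_pow_of_dvd
    exact dvd_pow_self _ (Good.pos (K := k) (l := l) (μ := μ) (a := b) i).ne'
  obtain ⟨w, hw⟩ := hunit.exists_left_inv
  have hwq : ∀ q' : Pc k l μ b, ev q' w * (q'.1.1 ^ (n + 1) - 1) ^ e = 1 := by
    intro q'
    have h1 := congrArg (ev q') hw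
    rw [map_mul, map_one, ev_pol, Finset.prod_pow, hP] at h1
    simpa using h1
  -- the constant
  set v1 : k := q.1.2 ^ κ * ev q w with hv1
  have hU : q.1.1 ^ (n + 1) - 1 ≠ 0 := BRO_ne hP hμ q
  have hvl : q.1.2 ^ l = (q.1.1 ^ (n + 1) - 1) ^ μ 0 := by
    rw [q.2.1, BRO_pt hP hμ]
  have hv1l : v1 ^ l = q.1.1 ^ (n + 1) - 1 := by
    have h1 : ev q w = ((q.1.1 ^ (n + 1) - 1) ^ e)⁻¹ := eq_inv_of_mul_eq_one_left (hwq q)
    rw [hv1, mul_pow, ← pow_mul, mul_comm κ l, pow_mul, hvl, ← pow_mul, mul_comm (μ 0) κ, he, h1, inv_pow, ← pow_mul,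
      mul_comm e l, pow_succ]
    field_simp
  -- the function
  set F : CR k l μ b := CR.pol (C (-v1)) + CR.y ^ κ * w with hF
  have hnorm : Algebra.norm (BR k μ b) F = algebraMap k[X] (BR k μ b) (X ^ (n + 1) - C (q.1.1 ^ (n + 1))) := by
    have h1 := hMN k l n hl2 μ b κ (fun _ => e) (fun _ => 1) w (C (-v1)) hκl (fun i => by rw [hμ i]; exact he) hw
    rw [hF, h1]
    congr 1
    have h2 : ∏ i, (X - C (b i)) ^ 1 = (X ^ (n + 1) - 1 : k[X]) := by
      rw [← hP]
      exact Finset.prod_congr rfl fun i _ => pow_one _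
    rw [h2]
    have h3 : Odd l := hlp.odd_of_ne_two hl2
    rw [← C_pow, h3.neg_pow, hv1l]
    simp only [map_neg, map_sub, map_pow, map_one]
    ring
  have hPne : (X ^ (n + 1) - C (q.1.1 ^ (n + 1)) : k[X]) ≠ 0 := (monic_X_pow_sub_C _ (Nat.succ_ne_zero n)).ne_zero
  obtain ⟨S, c, hc, hS1, hS2, -⟩ := hMK k l n μ b F _ hPne (by
    intro i
    rw [eval_sub, eval_pow, eval_X, eval_C, hb i]
    intro h0
    exact hU (by linear_combination -h0)) hnorm
  -- the points of `S`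
  have hroots : S.map (fun q' => q'.1.1) = ((Multiset.range (n + 1)).map qi).map (fun q' => q'.1.1) := by
    have h1 := X_pow_sub_C_eq_prod hs (Nat.succ_pos n) (rfl : q.1.1 ^ (n + 1) = q.1.1 ^ (n + 1))
    have h2 : (X ^ (n + 1) - C (q.1.1 ^ (n + 1)) : k[X]).roots = S.map (fun q' => q'.1.1) := by
      rw [hS2, roots_C_mul _ hc]
      have h3 : (S.map fun q => X - C q.1.1) = (S.map fun q' => q'.1.1).map (fun x => X - C x) := by
        rw [Multiset.map_map]
        rfl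
      rw [h3, roots_multiset_prod_X_sub_C]
    rw [← h2, h1]
    have h4 : ∏ i ∈ Finset.range (n + 1), (X - C (s ^ i * q.1.1)) =
        (((Multiset.range (n + 1)).map (fun i => s ^ i * q.1.1)).map (fun x => X - C x)).prod := by
      rw [Multiset.map_map]
      rfl
    rw [h4, roots_multiset_prod_X_sub_C, Multiset.map_map]
    apply Multiset.map_congr rfl
    intro i _
    exact (hqi i).1.symm
  have hy : ∀ q' ∈ S, q'.1.2 = q.1.2 := by
    intro q' hq'
    -- `F` vanishes at `q'`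
    have h1 : ev q' F = 0 := by
      have h2 : F ∈ dvI S := by
        rw [← hS1]
        exact Ideal.mem_span_singleton_self F
      have h3 : dvI S ≤ ptI q' := by
        apply Ideal.le_of_dvd
        exact Multiset.dvd_prod (Multiset.mem_map_of_mem _ hq')
      exact h3 h2
    have hu' : q'.1.1 ^ (n + 1) = q.1.1 ^ (n + 1) := by
      have h2 : q'.1.1 ∈ (X ^ (n + 1) - C (q.1.1 ^ (n + 1)) : k[X]).roots := by
        rw [hS2, roots_C_mul _ hc]
        have h3 : (S.map fun q => X - C q.1.1) = (S.map fun q' => q'.1.1).map (fun x => X - C x) := by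
          rw [Multiset.map_map]
          rfl
        rw [h3, roots_multiset_prod_X_sub_C]
        exact Multiset.mem_map_of_mem _ hq'
      have h3 := (mem_roots hPne).1 h2
      rw [IsRoot.def, eval_sub, eval_pow, eval_X, eval_C] at h3
      exact sub_eq_zero.1 h3
    rw [hF, map_add, map_mul, map_pow, ev_pol, ev_y, eval_C] at h1
    have h4 : q'.1.2 ^ κ * ev q' w = q.1.2 ^ κ * ev q w := by
      rw [← hv1]
      linear_combination h1
    have h5 : ev q' w = ev q w := by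
      have e1 := hwq q'
      have e2 := hwq q
      rw [hu'] at e1
      have e3 : (q.1.1 ^ (n + 1) - 1) ^ e ≠ 0 := pow_ne_zero _ hU
      exact mul_right_cancel₀ e3 (e1.trans e2.symm)
    have h6 : ev q w ≠ 0 := left_ne_zero_of_mul_eq_one (hwq q)
    rw [h5] at h4
    have h7 : q'.1.2 ^ κ = q.1.2 ^ κ := mul_right_cancel₀ h6 h4
    have h8 : q'.1.2 ^ l = q.1.2 ^ l := by
      rw [q'.2.1, BRO_pt hP hμ, hu', hvl]
    have hq0 : q.1.2 ≠ 0 := q.2.2.ne_zero
    have h9 : (q'.1.2 / q.1.2) ^ κ = 1 := by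
      rw [div_pow, h7, div_self (pow_ne_zero _ hq0)]
    have h10 : (q'.1.2 / q.1.2) ^ l = 1 := by
      rw [div_pow, h8, div_self (pow_ne_zero _ hq0)]
    have h11 : orderOf (q'.1.2 / q.1.2) ∣ Nat.gcd κ l :=
      Nat.dvd_gcd (orderOf_dvd_of_pow_eq_one h9) (orderOf_dvd_of_pow_eq_one h10)
    have h12 : Nat.gcd κ l = 1 := by
      have := (Nat.Prime.coprime_iff_not_dvd hlp).2 hκl
      exact this.symm
    rw [h12, Nat.dvd_one, orderOf_eq_one_iff] at h11
    rw [div_eq_iff hq0, one_mul] at h11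
    exact h11
  -- `S` is determined
  set ψ : k → Pc k l μ b := fun x => if h : ∃ q' : Pc k l μ b, q'.1.1 = x ∧ q'.1.2 = q.1.2 then h.choose else q with hψ
  have hψq : ∀ q' : Pc k l μ b, q'.1.2 = q.1.2 → ψ q'.1.1 = q' := by
    intro q' hq'
    have h1 : ∃ q'' : Pc k l μ b, q''.1.1 = q'.1.1 ∧ q''.1.2 = q.1.2 := ⟨q', rfl, hq'⟩
    rw [hψ]
    simp only
    rw [dif_pos h1]
    have h2 := h1.choose_spec
    apply Subtype.ext
    apply Prod.ext
    · exact h2.1
    · rw [h2.2, hq']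
  have hrec : ∀ T : Multiset (Pc k l μ b), (∀ q' ∈ T, q'.1.2 = q.1.2) → T = (T.map (fun q' => q'.1.1)).map ψ := by
    intro T hT
    rw [Multiset.map_map]
    conv_lhs => rw [← Multiset.map_id T]
    apply Multiset.map_congr rfl
    intro q' hq'
    exact (hψq q' (hT q' hq')).symm
  refine ⟨F, ?_⟩
  rw [hS1]
  congr 1
  rw [hrec S hy, hroots, ← hrec]
  intro q' hq'
  rw [Multiset.mem_map] at hq'
  obtain ⟨i, _, rfl⟩ := hq'
  exact (hqi i).2

theorem BRO (hMN : TD.MN_stmt) (hMK : TD.MK_stmt) (_h5 : KA5_stmt) (h7 : KA7_stmt) : BRO_stmt := by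
  intro k _ _ l n _ _ hl2 hm μ b _ _ hμ hb s hs hs1 E hE Cc
  have hinj := Good.inj (K := k) (l := l) (μ := μ) (a := b)
  have hP := BRO_prodb hinj hb
  have hfm : Fact (n + 1).Prime := ⟨hm⟩
  have hprim : IsPrimitiveRoot s (n + 1) := by
    have h1 : orderOf s = n + 1 := orderOf_eq_prime hs hs1
    have h2 := IsPrimitiveRoot.orderOf s
    rwa [h1] at h2
  obtain ⟨-, hgen, hprin, -, -⟩ := h7 k l n μ b
  have hcl : ∀ q : Pc k l μ b, ∏ i ∈ Finset.range (n + 1), (E^[i]) (cl q) = 1 := by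
    intro q
    have hpt : ∀ i : ℕ, ∃ q' : Pc k l μ b, q'.1.1 = s ^ i * q.1.1 ∧ q'.1.2 = q.1.2 := by
      intro i
      refine ⟨⟨(s ^ i * q.1.1, q.1.2), ?_, q.2.2⟩, rfl, rfl⟩
      show q.1.2 ^ l = ∏ j, (s ^ i * q.1.1 - b j) ^ μ j
      rw [q.2.1, BRO_pt hP hμ, BRO_pt hP hμ, mul_pow, ← pow_mul, mul_comm i, pow_mul, hs, one_pow, one_mul]
    choose qi hqi using hpt
    have hE' : ∀ i : ℕ, (E^[i]) (cl q) = cl (qi i) := by
      intro i
      induction i with
      | zero =>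
        have h1 : qi 0 = q := by
          apply Subtype.ext
          apply Prod.ext
          · rw [(hqi 0).1, pow_zero, one_mul]
          · exact (hqi 0).2
        rw [h1]
        rfl
      | succ i ih =>
        rw [Function.iterate_succ_apply', ih]
        apply hE (qi i) (qi (i + 1))
        · rw [(hqi (i + 1)).1, (hqi i).1, RingEquiv.refl_apply, add_zero, pow_succ]
          ring
        · rw [(hqi (i + 1)).2, (hqi i).2, RingEquiv.refl_apply, one_mul]
    have h1 := (hprin ((Multiset.range (n + 1)).map qi)).2 (BRO_div hMN hMK hl2 hμ hb hprim q qi hqi)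
    rw [Multiset.map_map] at h1
    rw [← h1]
    rw [Finset.prod_congr rfl (fun i _ => hE' i)]
    rfl
  obtain ⟨S, rfl⟩ := hgen Cc
  induction S using Multiset.induction_on with
  | empty =>
    rw [Multiset.map_zero, Multiset.prod_zero]
    apply Finset.prod_eq_one
    intro i _
    exact iterate_map_one E i
  | cons q S ih =>
    rw [Multiset.map_cons, Multiset.prod_cons]
    have h1 : ∀ i ∈ Finset.range (n + 1), (E^[i]) (cl q * (S.map cl).prod) = (E^[i]) (cl q) * (E^[i]) (S.map cl).prod := by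
      intro i _
      exact iterate_map_mul E i _ _
    rw [Finset.prod_congr rfl h1, Finset.prod_mul_distrib, hcl q, ih, one_mul]

end

end Pool.Agent.AQ
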